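import Pool.Agent.helper23.F2.Spec

/-! # Project F2 (MP_26dbae_co, S07735), row AL6: choice of two ends and of a good system of walks -/

set_option autoImplicit false

open scoped BigOperators

namespace Pool.Agent.F2

open Pool.Agent.helper23.TH

noncomputable section

open Classical

/-- pairs of walks with the same ends, by their ends -/
theorem AL6_card {V L : Type} [Fintype V] {b s : ℕ} (G : LG V L b s) (t : ℕ)
    (R : (Fin (t + 1) → V) × (Fin (t + 1) → V) → Prop) :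
    ((PP G.A t).filter R).card = ∑ a : V × V, (((G.WW t a.1 a.2) ×ˢ (G.WW t a.1 a.2)).filter R).card := by
  rw [Finset.card_eq_sum_card_fiberwise (f := fun q : (Fin (t + 1) → V) × (Fin (t + 1) → V) =>
    (q.1 0, q.1 (Fin.last t))) (t := Finset.univ) (fun _ _ => Finset.mem_coe.2 (Finset.mem_univ _))]
  refine Finset.sum_congr rfl fun a _ => ?_
  congr 1
  ext q
  simp only [PP, LG.WW, Finset.mem_filter, Finset.mem_product, Finset.mem_univ, true_and, Prod.ext_iff]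
  constructor
  · rintro ⟨⟨⟨h1, h2, h3, h4⟩, h5⟩, h6, h7⟩
    exact ⟨⟨⟨h1, h6, h7⟩, h2, h3 ▸ h6, h4 ▸ h7⟩, h5⟩
  · rintro ⟨⟨⟨h1, h2, h3⟩, h4, h5, h6⟩, h7⟩
    exact ⟨⟨⟨h1, h4, h2.trans h5.symm, h3.trans h6.symm⟩, h7⟩, h2, h3⟩

theorem AL6 (hAL5 : AL5_stmt) (hWK3 : WK3_stmt) : AL6_stmt := by
  intro V L _ b s G k q W _ δ hδ hδW hpos hbad0
  obtain ⟨B, hB⟩ : ∃ B : (Fin (k + 2) → V) → (Fin (k + 2) → V) → Prop, ∀ P Q, B P Q ↔ ¬ G.GP k q P Q :=
    ⟨fun P Q => ¬ G.GP k q P Q, fun _ _ => Iff.rfl⟩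
  have hbad : (((PP G.A (k + 1)).filter fun p => B p.1 p.2).card : ℝ) ≤ δ * hh G.A (k + 1) := by
    have e : ((PP G.A (k + 1)).filter fun p => B p.1 p.2) =
        ((PP G.A (k + 1)).filter fun p => ¬ G.GP k q p.1 p.2) := by
      ext p
      simp only [Finset.mem_filter, hB]
    rw [e]
    exact hbad0
  have hPP : ((PP G.A (k + 1)).card : ℝ) = ∑ a : V × V, ((G.WW (k + 1) a.1 a.2).card : ℝ) ^ 2 := by
    have h1 := AL6_card G (k + 1) (fun _ => True)
    simp only [Finset.filter_true, Finset.card_product] at h1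
    rw [h1, Nat.cast_sum]
    refine Finset.sum_congr rfl fun a _ => ?_
    push_cast
    ring
  have hbad' : ∑ a : V × V, ((((G.WW (k + 1) a.1 a.2) ×ˢ (G.WW (k + 1) a.1 a.2)).filter
      fun p => B p.1 p.2).card : ℝ) ≤ ∑ a : V × V, δ * ((G.WW (k + 1) a.1 a.2).card : ℝ) ^ 2 := by
    rw [← Finset.mul_sum, ← hPP, hWK3 V G.A (k + 1)]
    refine le_trans (le_of_eq ?_) hbad
    rw [AL6_card G (k + 1), Nat.cast_sum]
  obtain ⟨a, ha1, ha2⟩ : ∃ a : V × V, (G.WW (k + 1) a.1 a.2).Nonempty ∧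
      ((((G.WW (k + 1) a.1 a.2) ×ˢ (G.WW (k + 1) a.1 a.2)).filter
        fun p => B p.1 p.2).card : ℝ) ≤ δ * ((G.WW (k + 1) a.1 a.2).card : ℝ) ^ 2 := by
    by_contra hn
    push Not at hn
    have hle : ∀ a ∈ (Finset.univ : Finset (V × V)), δ * ((G.WW (k + 1) a.1 a.2).card : ℝ) ^ 2 ≤
        ((((G.WW (k + 1) a.1 a.2) ×ˢ (G.WW (k + 1) a.1 a.2)).filter
          fun p => B p.1 p.2).card : ℝ) := by
      intro a _
      rcases Finset.eq_empty_or_nonempty (G.WW (k + 1) a.1 a.2) with h | h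
      · rw [h]
        simp
      · exact (hn a h).le
    have hne : (PP G.A (k + 1)).Nonempty := by
      rw [← Finset.card_pos]
      have := hWK3 V G.A (k + 1)
      rw [← this] at hpos
      exact_mod_cast hpos
    obtain ⟨p, hp⟩ := hne
    have hp' : (G.WW (k + 1) (p.1 0) (p.1 (Fin.last (k + 1)))).Nonempty := by
      refine ⟨p.1, ?_⟩
      rw [LG.WW, Finset.mem_filter]
      rw [PP, Finset.mem_filter] at hp
      exact ⟨Finset.mem_univ _, hp.2.1, rfl, rfl⟩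
    have hlt := Finset.sum_lt_sum hle ⟨(p.1 0, p.1 (Fin.last (k + 1))), Finset.mem_univ _, hn _ hp'⟩
    exact absurd hbad' (not_le.2 hlt)
  obtain ⟨w, hw1, hw2⟩ := hAL5 (Fin (k + 2) → V) W (G.WW (k + 1) a.1 a.2)
    B δ ha1 ha2 hδ hδW
  exact ⟨a.1, a.2, w, hw1, fun i j hij => not_not.1 fun h => hw2 i j hij ((hB _ _).2 h)⟩

end

end Pool.Agent.F2
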