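import Pool.Agent.helper23.F2.Spec

/-! # Project F2 (MP_26dbae_co, S07735), row WK2: conflicts between walks, Cauchy-Schwarz -/

set_option autoImplicit false

open scoped BigOperators

namespace Pool.Agent.F2

open Pool.Agent.helper23.TH

noncomputable section

open Classical

theorem WK2 (hWK1 : WK1_stmt) : WK2_stmt := by
  intro V L _ _ b s G t o o'
  have h1 : ((((PP G.A t).filter fun q => ¬ Disjoint (G.obj q.1 o) (G.obj q.2 o')).card : ℕ) : ℝ) ≤
      ∑ w : L × (V × V), G.MM t w.1 o w.2.1 w.2.2 * G.MM t w.1 o' w.2.1 w.2.2 := by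
    have h2 : ((PP G.A t).filter fun q => ¬ Disjoint (G.obj q.1 o) (G.obj q.2 o')) ⊆
        (Finset.univ : Finset (L × (V × V))).biUnion fun w =>
          ((G.WW t w.2.1 w.2.2).filter fun P => w.1 ∈ G.obj P o) ×ˢ
            ((G.WW t w.2.1 w.2.2).filter fun P => w.1 ∈ G.obj P o') := by
      intro q hq
      rw [Finset.mem_filter, PP, Finset.mem_filter] at hq
      obtain ⟨⟨-, hq1, hq2, hq3, hq4⟩, hq5⟩ := hq
      rw [Finset.not_disjoint_iff] at hq5
      obtain ⟨z, hz1, hz2⟩ := hq5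
      rw [Finset.mem_biUnion]
      refine ⟨(z, (q.1 0, q.1 (Fin.last t))), Finset.mem_univ _, ?_⟩
      rw [Finset.mem_product, Finset.mem_filter, Finset.mem_filter, LG.WW, Finset.mem_filter,
        Finset.mem_filter]
      exact ⟨⟨⟨Finset.mem_univ _, hq1, rfl, rfl⟩, hz1⟩, ⟨Finset.mem_univ _, hq2, hq3.symm, hq4.symm⟩, hz2⟩
    have h3 := (Finset.card_le_card h2).trans Finset.card_biUnion_le
    have h4 : ((((PP G.A t).filter fun q => ¬ Disjoint (G.obj q.1 o) (G.obj q.2 o')).card : ℕ) : ℝ) ≤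
        ((∑ w : L × (V × V), (((G.WW t w.2.1 w.2.2).filter fun P => w.1 ∈ G.obj P o) ×ˢ
            ((G.WW t w.2.1 w.2.2).filter fun P => w.1 ∈ G.obj P o')).card : ℕ) : ℝ) := by
      exact_mod_cast h3
    refine h4.trans (le_of_eq ?_)
    rw [Nat.cast_sum]
    refine Finset.sum_congr rfl fun w _ => ?_
    rw [Finset.card_product, Nat.cast_mul, hWK1 V L b s G t w.1 o w.2.1 w.2.2,
      hWK1 V L b s G t w.1 o' w.2.1 w.2.2]
  have hF : ∀ p : Ob t, ∑ w : L × (V × V), G.MM t w.1 p w.2.1 w.2.2 ^ 2 = G.FF t p := by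
    intro p
    rw [LG.FF, Fintype.sum_prod_type]
    refine Finset.sum_congr rfl fun z _ => ?_
    rw [nsq, Fintype.sum_prod_type]
  have h5 := Finset.sum_mul_sq_le_sq_mul_sq (Finset.univ : Finset (L × (V × V)))
    (fun w => G.MM t w.1 o w.2.1 w.2.2) (fun w => G.MM t w.1 o' w.2.1 w.2.2)
  rw [hF o, hF o'] at h5
  refine le_trans ?_ h5
  exact pow_le_pow_left₀ (Nat.cast_nonneg _) h1 2

end

end Pool.Agent.F2
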